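import Mathlib
import Pool.Agent.Lib_helper47.RBrouwer

/-!
# Invariance of domain (Kulpa–Tao proof from Brouwer's theorem)
-/

namespace Pool.Agent.Lib_helper53.Shadow

open Metric Set MeasureTheory
open scoped Topology Manifold ContDiff

variable {E : Type*} [NormedAddCommGroup E] [InnerProductSpace ℝ E] [FiniteDimensional ℝ E]

/-- Stability of the zero. -/
lemma stable_zero {f : E → E} (hf : ContinuousOn f (closedBall 0 1)) {G : E → E}
    (hGf : ∀ x ∈ closedBall (0 : E) 1, G (f x) = x) {G' : E → E}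
    (hG' : ContinuousOn G' (f '' closedBall 0 1))
    (hd : ∀ y ∈ f '' closedBall 0 1, ‖G y - G' y‖ ≤ 1) :
    ∃ y ∈ f '' closedBall 0 1, G' y = 0 := by
  obtain ⟨x, hx, hfx⟩ := Pool.Agent.Lib_helper47.R.brouwer (f := fun x => x - G' (f x))
    (continuousOn_id.sub (hG'.comp hf (mapsTo_image _ _))) (by
      intro x hx
      have h1 := hd (f x) (mem_image_of_mem f hx)
      rw [hGf x hx] at h1
      simpa using h1)
  refine ⟨f x, mem_image_of_mem f hx, ?_⟩
  have : x - G' (f x) = x := hfx
  simpa using this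

/-- A continuous map can be approximated by a smooth one. -/
lemma exists_smooth_approx {G : E → E} (hG : Continuous G) {δ : ℝ} (hδ : 0 < δ) :
    ∃ P : E → E, ContDiff ℝ ∞ P ∧ ∀ x, ‖P x - G x‖ < δ := by
  obtain ⟨g, hg⟩ := exists_contMDiffMap_forall_mem_convex_of_local_const (n := ⊤) 𝓘(ℝ, E)
    (t := fun x => ball (G x) δ) (fun x => convex_ball _ _) (fun x => by
      refine ⟨G x, ?_⟩
      have h1 : ∀ᶠ y in 𝓝 x, dist (G y) (G x) < δ :=
        Metric.tendsto_nhds.mp (hG.tendsto x) δ hδ
      filter_upwards [h1] with y hy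
      rw [mem_ball, dist_comm]
      exact hy)
  refine ⟨g, ?_, fun x => ?_⟩
  · exact contMDiff_iff_contDiff.mp g.contMDiff
  · have := hg x
    rwa [mem_ball, dist_eq_norm] at this

variable [MeasurableSpace E] [BorelSpace E]

/-- **Invariance of domain at the centre of the ball**. -/
theorem mem_interior_image {f : E → E} (hf : ContinuousOn f (closedBall 0 1))
    (hinj : InjOn f (closedBall 0 1)) : f 0 ∈ interior (f '' closedBall 0 1) := by
  classical
  set B : Set E := closedBall 0 1 with hB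
  set K : Set E := f '' B with hK
  have hBc : IsCompact B := isCompact_closedBall 0 1
  have hKc : IsCompact K := hBc.image_of_continuousOn hf
  have h0B : (0 : E) ∈ B := by simp [hB]
  -- the inverse, extended by Tietze
  obtain ⟨G, hGf⟩ : ∃ G : C(E, E), ∀ x ∈ B, G (f x) = x := by
    let fB : B → E := fun x => f x
    have hfBc : Continuous fB := continuousOn_iff_continuous_domRestrict.mp hf
    have hfBi : Function.Injective fB := fun x y h => Subtype.ext (hinj x.2 y.2 h)
    have : CompactSpace B := isCompact_iff_compactSpace.mp hBc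
    have hce : Topology.IsClosedEmbedding fB := hfBc.isClosedEmbedding hfBi
    obtain ⟨G, hG⟩ := ContinuousMap.exists_extension hce (⟨Subtype.val, continuous_subtype_val⟩ : C(B, E))
    refine ⟨G, fun x hx => ?_⟩
    have := congrArg (fun h : C(B, E) => h ⟨x, hx⟩) hG
    simpa using this
  by_contra hnot
  have hGc : Continuous G := G.continuous
  have hG0 : G (f 0) = 0 := hGf 0 h0B
  obtain ⟨ε, hε, hGε⟩ : ∃ ε > 0, ∀ y, dist y (f 0) < 3 * ε → ‖G y‖ < 1 / 10 := by
    have h1 := Metric.continuous_iff.mp hGc (f 0) (1 / 10) (by norm_num)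
    obtain ⟨r, hr, h2⟩ := h1
    refine ⟨r / 3, by positivity, fun y hy => ?_⟩
    have h3 := h2 y (by linarith)
    rwa [hG0, dist_zero_right] at h3
  obtain ⟨c, hcK, hcd⟩ : ∃ c, c ∉ K ∧ dist c (f 0) < ε := by
    by_contra hall
    push Not at hall
    apply hnot
    rw [mem_interior_iff_mem_nhds, Metric.mem_nhds_iff]
    refine ⟨ε, hε, fun y hy => ?_⟩
    by_contra hyK
    exact absurd hy (not_lt.mpr (hall y hyK))
  -- the set Σ₁
  set S1 : Set E := K ∩ {y | ε ≤ dist y c} with hS1
  have hS1c : IsCompact S1 :=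
    hKc.inter_right (isClosed_le continuous_const (continuous_id.dist continuous_const))
  have hGne : ∀ y ∈ S1, G y ≠ 0 := by
    rintro y ⟨⟨x, hx, rfl⟩, hy2⟩ h
    rw [hGf x hx] at h
    subst h
    rw [Set.mem_ofPred_eq, dist_comm] at hy2
    linarith
  obtain ⟨δ, hδ0, hδ1, hδS⟩ : ∃ δ > 0, δ ≤ 1 / 20 ∧ ∀ y ∈ S1, 2 * δ ≤ ‖G y‖ := by
    rcases S1.eq_empty_or_nonempty with he | hne
    · exact ⟨1 / 20, by norm_num, le_rfl, fun y hy => by simp [he] at hy⟩
    · obtain ⟨y0, hy0, hmin⟩ := hS1c.exists_isMinOn hne (hGc.norm.continuousOn)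
      have hpos : 0 < ‖G y0‖ := norm_pos_iff.mpr (hGne y0 hy0)
      refine ⟨min (1 / 20) (‖G y0‖ / 2), by positivity, min_le_left _ _, fun y hy => ?_⟩
      have h1 : ‖G y0‖ ≤ ‖G y‖ := hmin hy
      have h2 := min_le_right (1 / 20 : ℝ) (‖G y0‖ / 2)
      linarith
  obtain ⟨P, hPs, hPG⟩ := exists_smooth_approx hGc hδ0
  -- a small vector outside the image of the sphere
  obtain ⟨v, hvδ, hvP⟩ : ∃ v : E, ‖v‖ < δ ∧ v ∉ P '' sphere c ε ∧ True := by
    let μ : Measure E := Measure.addHaar
    have h1 : μ (P '' sphere c ε) = 0 :=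
      addHaar_image_eq_zero_of_differentiableOn_of_addHaar_eq_zero μ
        ((hPs.differentiable (by simp)).differentiableOn)
        (Measure.addHaar_sphere_of_ne_zero μ c hε.ne')
    by_contra hall
    push Not at hall
    have h2 : ball (0 : E) δ ⊆ P '' sphere c ε := by
      intro v hv
      by_contra hvn
      exact (hall v (by simpa using hv) hvn)
    have h3 : μ (ball (0 : E) δ) = 0 := measure_mono_null h2 h1
    exact (measure_ball_pos μ 0 hδ0).ne' h3
  obtain ⟨hvP, -⟩ := hvP
  -- the retraction Φ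
  let Φ : E → E := fun y => c + (max (ε / dist y c) 1) • (y - c)
  have hne : ∀ y ∈ K, dist y c ≠ 0 := by
    intro y hy h
    rw [dist_eq_zero] at h
    exact hcK (h ▸ hy)
  have hΦc : ContinuousOn Φ K := by
    apply continuousOn_const.add
    apply ContinuousOn.smul
    · apply ContinuousOn.sup _ continuousOn_const
      exact continuousOn_const.div (continuous_id.dist continuous_const).continuousOn hne
    · exact (continuous_id.sub continuous_const).continuousOn
  have hΦ1 : ∀ y ∈ S1, Φ y = y := by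
    rintro y ⟨hyK, hy⟩
    have h1 : ε / dist y c ≤ 1 := by
      rw [div_le_one (lt_of_lt_of_le hε hy)]
      exact hy
    simp only [Φ]
    rw [max_eq_right h1, one_smul]
    abel
  have hΦ2 : ∀ y ∈ K, dist y c < ε → Φ y ∈ sphere c ε := by
    intro y hyK hy
    have h0 : 0 < dist y c := lt_of_le_of_ne dist_nonneg (Ne.symm (hne y hyK))
    have h1 : 1 ≤ ε / dist y c := by
      rw [one_le_div h0]; exact hy.le
    simp only [Φ]
    rw [max_eq_left h1, mem_sphere, dist_eq_norm, add_sub_cancel_left, norm_smul,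
      Real.norm_of_nonneg (by positivity), ← dist_eq_norm, div_mul_cancel₀ _ h0.ne']
  obtain ⟨y, hyK, hy0⟩ := stable_zero hf (G := G) hGf (G' := fun y => P (Φ y) - v)
    ((hPs.continuous.comp_continuousOn hΦc).sub continuousOn_const) (by
      intro y hyK
      rcases lt_or_ge (dist y c) ε with hlt | hge
      · have hs := hΦ2 y hyK hlt
        have h1 : dist (Φ y) (f 0) < 3 * ε := by
          calc dist (Φ y) (f 0) ≤ dist (Φ y) c + dist c (f 0) := dist_triangle _ _ _
            _ < 3 * ε := by rw [mem_sphere.mp hs]; linarith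
        have h2 : dist y (f 0) < 3 * ε := by
          calc dist y (f 0) ≤ dist y c + dist c (f 0) := dist_triangle _ _ _
            _ < 3 * ε := by linarith
        have h3 := hGε _ h1
        have h4 := hGε _ h2
        have h5 := hPG (Φ y)
        have h6 : G y - (P (Φ y) - v) = G y - (P (Φ y) - G (Φ y)) - G (Φ y) + v := by abel
        rw [h6]
        calc _ ≤ ‖G y - (P (Φ y) - G (Φ y)) - G (Φ y)‖ + ‖v‖ := norm_add_le _ _
          _ ≤ ‖G y - (P (Φ y) - G (Φ y))‖ + ‖G (Φ y)‖ + ‖v‖ := by gcongr; exact norm_sub_le _ _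
          _ ≤ ‖G y‖ + ‖P (Φ y) - G (Φ y)‖ + ‖G (Φ y)‖ + ‖v‖ := by gcongr; exact norm_sub_le _ _
          _ ≤ 1 := by linarith
      · have hyS : y ∈ S1 := ⟨hyK, hge⟩
        rw [hΦ1 y hyS]
        have h5 := hPG y
        have h6 : G y - (P y - v) = -(P y - G y) + v := by abel
        rw [h6]
        calc _ ≤ ‖-(P y - G y)‖ + ‖v‖ := norm_add_le _ _
          _ ≤ 1 := by rw [norm_neg]; linarith)
  have hPv : P (Φ y) = v := sub_eq_zero.mp hy0
  rcases lt_or_ge (dist y c) ε with hlt | hge
  · exact hvP ⟨Φ y, hΦ2 y hyK hlt, hPv⟩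
  · have hyS : y ∈ S1 := ⟨hyK, hge⟩
    rw [hΦ1 y hyS] at hPv
    have h5 := hPG y
    have h7 := hδS y hyS
    have h8 : ‖G y‖ ≤ ‖P y - G y‖ + ‖v‖ := by
      rw [← hPv]
      calc ‖G y‖ = ‖-(P y - G y) + P y‖ := by congr 1; abel
        _ ≤ ‖-(P y - G y)‖ + ‖P y‖ := norm_add_le _ _
        _ = _ := by rw [norm_neg]
    linarith

end Pool.Agent.Lib_helper53.Shadow
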