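import Mathlib

/-!
# A subspace of codimension two in general position with respect to small integer vectors
-/

namespace Pool.Agent.Lib_helper53.Shadow

open Finset

/-- The two by two minors. -/
def mn (m i : ℕ) : ℤ := 64 ^ m * 64 ^ (3 * i) - 64 ^ (3 * m) * 64 ^ i

/-- The exponent of the leading term. -/
def ex (m i : ℕ) : ℕ := if m < i then m + 3 * i else 3 * m + i

lemma ex_lt {m' m i : ℕ} (h : m' < m) (_h' : m' ≠ i) (_hm : m ≠ i) : ex m' i < ex m i := by
  unfold ex
  split_ifs <;> omega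

lemma mn_le {m i : ℕ} : |mn m i| ≤ 64 ^ ex m i := by
  unfold mn ex
  rw [← pow_add, ← pow_add]
  split_ifs with h
  · have h1 : (64 : ℤ) ^ (3 * m + i) ≤ 64 ^ (m + 3 * i) :=
      pow_le_pow_right₀ (by norm_num) (by omega)
    have h2 : (0 : ℤ) < 64 ^ (3 * m + i) := by positivity
    rw [abs_le]; constructor <;> linarith
  · have h1 : (64 : ℤ) ^ (m + 3 * i) ≤ 64 ^ (3 * m + i) :=
      pow_le_pow_right₀ (by norm_num) (by omega)
    have h2 : (0 : ℤ) < 64 ^ (m + 3 * i) := by positivity
    rw [abs_le]; constructor <;> linarith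

lemma le_mn {m i : ℕ} (hm : m ≠ i) : 64 ^ ex m i ≤ 2 * |mn m i| := by
  unfold mn ex
  rw [← pow_add, ← pow_add]
  split_ifs with h
  · have h1 : (64 : ℤ) ^ (3 * m + i + 1) ≤ 64 ^ (m + 3 * i) :=
      pow_le_pow_right₀ (by norm_num) (by omega)
    have h2 : (0 : ℤ) < 64 ^ (3 * m + i) := by positivity
    rw [pow_succ] at h1
    have := le_abs_self ((64 : ℤ) ^ (m + 3 * i) - 64 ^ (3 * m + i))
    linarith
  · have h1 : (64 : ℤ) ^ (m + 3 * i + 1) ≤ 64 ^ (3 * m + i) :=
      pow_le_pow_right₀ (by norm_num) (by omega)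
    have h2 : (0 : ℤ) < 64 ^ (m + 3 * i) := by positivity
    rw [pow_succ] at h1
    have := neg_le_abs ((64 : ℤ) ^ (m + 3 * i) - 64 ^ (3 * m + i))
    linarith

lemma mn_superinc {m i : ℕ} (hm : m ≠ i) :
    2 * ∑ m' ∈ (range m).filter (· ≠ i), |mn m' i| < |mn m i| := by
  set s := (range m).filter (· ≠ i) with hs
  have h1 : ∑ m' ∈ s, |mn m' i| ≤ ∑ m' ∈ s, (64 : ℤ) ^ ex m' i :=
    sum_le_sum fun _ _ => mn_le
  have h2 : ∑ m' ∈ s, 64 ^ ex m' i = ∑ j ∈ s.image (fun m' => 2 * ex m' i), 8 ^ j := by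
    rw [sum_image]
    · apply sum_congr rfl
      intro m' _
      rw [pow_mul]
      norm_num
    · intro a ha b hb hab
      simp only [hs, coe_filter, mem_range, Set.mem_ofPred_eq] at ha hb
      simp only [mul_eq_mul_left_iff, OfNat.ofNat_ne_zero, or_false] at hab
      rcases lt_trichotomy a b with h | h | h
      · have := ex_lt h ha.2 hb.2; omega
      · exact h
      · have := ex_lt h hb.2 ha.2; omega
  rcases s.eq_empty_or_nonempty with he | ⟨a, ha⟩
  · rw [he]
    simp only [sum_empty, mul_zero]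
    have := le_mn hm
    have h3 : (0 : ℤ) < 64 ^ ex m i := by positivity
    linarith
  have hex : 1 ≤ ex m i := by
    simp only [hs, mem_filter, mem_range] at ha
    have := ex_lt ha.1 ha.2 hm
    omega
  have h3 : ∑ j ∈ s.image (fun m' => 2 * ex m' i), 8 ^ j < 8 ^ (2 * ex m i - 1) := by
    apply Nat.geomSum_lt (by norm_num)
    intro k hk
    simp only [mem_image, hs, mem_filter, mem_range] at hk
    obtain ⟨a, ⟨h4, h5⟩, rfl⟩ := hk
    have := ex_lt h4 h5 hm
    omega
  have h4 : (64 : ℤ) ^ ex m i = 8 * 8 ^ (2 * ex m i - 1) := by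
    rw [← pow_succ', show 2 * ex m i - 1 + 1 = 2 * ex m i by omega, pow_mul]
    norm_num
  have h5 : (∑ m' ∈ s, (64 : ℤ) ^ ex m' i) < 8 ^ (2 * ex m i - 1) := by
    have := h3
    rw [← h2] at this
    exact_mod_cast this
  have h6 := le_mn hm
  have h7 : (0 : ℤ) < 8 ^ (2 * ex m i - 1) := by positivity
  linarith

/-- **General position.** -/
theorem general_position {d : ℕ} (i : Fin d) (x : Fin d → ℝ)
    (hu : ∑ a : Fin d, (64 : ℝ) ^ (a : ℕ) * x a = 0) (hv : ∑ a : Fin d, (64 : ℝ) ^ (3 * (a : ℕ)) * x a = 0)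
    (h2 : ∀ m, m ≠ i → |x m| ≤ 2)
    (h : ∀ m, m ≠ i → (x m = 0 ∨ 1 ≤ |x m| ∨ ∀ m' < m, m' ≠ i → x m' = 0)) : x = 0 := by
  classical
  have hsum : ∑ a : Fin d, (mn a i : ℝ) * x a = 0 := by
    have h1 : ∑ a : Fin d, (mn a i : ℝ) * x a = (64 : ℝ) ^ (3 * (i : ℕ)) * ∑ a : Fin d, (64 : ℝ) ^ (a : ℕ) * x a
        - (64 : ℝ) ^ (i : ℕ) * ∑ a : Fin d, (64 : ℝ) ^ (3 * (a : ℕ)) * x a := by
      rw [mul_sum, mul_sum, ← sum_sub_distrib]
      apply sum_congr rfl
      intro a _
      unfold mn
      push_cast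
      ring
    rw [h1, hu, hv]; ring
  have hmi : (mn i i : ℝ) = 0 := by unfold mn; push_cast; ring
  have key : ∀ m, m ≠ i → x m = 0 := by
    by_contra hcon
    push Not at hcon
    obtain ⟨m0, hm0i, hm0⟩ := hcon
    obtain ⟨m, hm, hmax⟩ := ((univ : Finset (Fin d)).filter fun m => m ≠ i ∧ x m ≠ 0).exists_max_image
      id ⟨m0, by simp [hm0i, hm0]⟩
    simp only [mem_filter, mem_univ, true_and, id] at hm hmax
    obtain ⟨hmi', hxm⟩ := hm
    have hbig : ∀ a, m < a → a ≠ i → x a = 0 := by
      intro a ha hai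
      by_contra hxa
      exact absurd (hmax a ⟨hai, hxa⟩) (not_le.mpr ha)
    -- isolate the term of m
    have h3 : (mn m i : ℝ) * x m = - ∑ a ∈ (univ : Finset (Fin d)).filter (fun a => a < m ∧ a ≠ i),
        (mn a i : ℝ) * x a := by
      rw [eq_neg_iff_add_eq_zero, ← hsum, ← sum_filter_add_sum_filter_not univ (fun a => a < m ∧ a ≠ i),
        add_comm]
      congr 1
      rw [sum_eq_single m]
      · intro b hb hbm
        simp only [mem_filter, mem_univ, true_and, not_and_or, not_not, not_lt] at hb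
        rcases hb with hb | hb
        · by_cases hbi : b = i
          · rw [hbi, hmi, zero_mul]
          · rw [hbig b (lt_of_le_of_ne hb (Ne.symm hbm)) hbi, mul_zero]
        · rw [hb, hmi, zero_mul]
      · intro hb
        exact absurd (by simp : m ∈ (univ : Finset (Fin d)).filter (fun a => ¬(a < m ∧ a ≠ i))) hb
    have hne : mn (m : ℕ) i ≠ 0 := by
      intro h0
      have h4 := le_mn (m := (m : ℕ)) (i := i) (fun hh => hmi' (Fin.ext hh))
      rw [h0] at h4
      have h5 : (0 : ℤ) < 64 ^ ex m i := by positivity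
      simp at h4
      linarith
    rcases h m hmi' with h4 | h4 | h4
    · exact hxm h4
    · have h5 : |(mn m i : ℝ)| ≤ 2 * ∑ a ∈ (univ : Finset (Fin d)).filter (fun a => a < m ∧ a ≠ i),
          |(mn a i : ℝ)| := by
        calc |(mn m i : ℝ)| ≤ |(mn m i : ℝ)| * |x m| := le_mul_of_one_le_right (abs_nonneg _) h4
          _ = |∑ a ∈ (univ : Finset (Fin d)).filter (fun a => a < m ∧ a ≠ i), (mn a i : ℝ) * x a| := by
              rw [← abs_mul, h3, abs_neg]
          _ ≤ ∑ a ∈ (univ : Finset (Fin d)).filter (fun a => a < m ∧ a ≠ i), |(mn a i : ℝ) * x a| :=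
              abs_sum_le_sum_abs _ _
          _ ≤ ∑ a ∈ (univ : Finset (Fin d)).filter (fun a => a < m ∧ a ≠ i), 2 * |(mn a i : ℝ)| := by
              apply sum_le_sum
              intro a ha
              simp only [mem_filter, mem_univ, true_and] at ha
              rw [abs_mul, mul_comm]
              exact mul_le_mul_of_nonneg_right (h2 a ha.2) (abs_nonneg _)
          _ = _ := by rw [mul_sum]
      have h6 := mn_superinc (m := (m : ℕ)) (i := i) (fun hh => hmi' (Fin.ext hh))
      have h7 : ∑ a ∈ (univ : Finset (Fin d)).filter (fun a => a < m ∧ a ≠ i), |(mn a i : ℝ)|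
          = ((∑ m' ∈ (range m).filter (· ≠ (i : ℕ)), |mn m' i| : ℤ) : ℝ) := by
        push_cast
        refine sum_bij (fun a _ => (a : ℕ)) ?_ ?_ ?_ ?_
        · intro a ha
          simp only [mem_filter, mem_univ, true_and] at ha
          simp only [mem_filter, mem_range]
          exact ⟨ha.1, fun hh => ha.2 (Fin.ext hh)⟩
        · intro a _ b _ hab
          exact Fin.ext hab
        · intro b hb
          simp only [mem_filter, mem_range] at hb
          refine ⟨⟨b, hb.1.trans m.2⟩, ?_, rfl⟩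
          simp only [mem_filter, mem_univ, true_and]
          exact ⟨hb.1, fun hh => hb.2 (congrArg Fin.val hh)⟩
        · intro a _; rfl
      rw [h7] at h5
      have h8 : ((2 * ∑ m' ∈ (range m).filter (· ≠ (i : ℕ)), |mn m' i| : ℤ) : ℝ) < ((|mn m i| : ℤ) : ℝ) := by
        exact_mod_cast h6
      push_cast at h8 h5
      linarith
    · have h5 : (mn m i : ℝ) * x m = 0 := by
        rw [h3, neg_eq_zero]
        apply sum_eq_zero
        intro a ha
        simp only [mem_filter, mem_univ, true_and] at ha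
        rw [h4 a ha.1 ha.2, mul_zero]
      rcases mul_eq_zero.mp h5 with h6 | h6
      · exact hne (by exact_mod_cast h6)
      · exact hxm h6
  have hxi : x i = 0 := by
    have h3 : (64 : ℝ) ^ (i : ℕ) * x i = 0 := by
      rw [← hu]
      symm
      apply sum_eq_single i
      · intro b _ hb; rw [key b hb, mul_zero]
      · intro hi; exact absurd (mem_univ i) hi
    rcases mul_eq_zero.mp h3 with h4 | h4
    · exact absurd h4 (by positivity)
    · exact h4
  funext a
  by_cases ha : a = i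
  · rw [ha]; exact hxi
  · exact key a ha

end Pool.Agent.Lib_helper53.Shadow
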