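import Mathlib
import Pool.Agent.Lib_helper53.Shadow.InvDomain

/-!
# The sphere `S^n` does not embed in `ℝ^n`
-/

namespace Pool.Agent.Lib_helper53.Shadow

open Metric Set MeasureTheory Module
open scoped Topology Manifold ContDiff

/-- For `n ≥ 1` there is no continuous injection of the `n`-sphere into `ℝ^n`. -/
theorem no_sphere_embedding {n : ℕ} (hn : 1 ≤ n)
    (h : sphere (0 : EuclideanSpace ℝ (Fin (n + 1))) 1 → EuclideanSpace ℝ (Fin n))
    (hc : Continuous h) (hi : Function.Injective h) : False := by
  classical
  have : Fact (finrank ℝ (EuclideanSpace ℝ (Fin (n + 1))) = n + 1) := ⟨by simp⟩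
  have hopen : IsOpen (range h) := by
    rw [isOpen_iff_mem_nhds]
    rintro _ ⟨p, rfl⟩
    let φ := stereographic' n (-p)
    have hps : p ∈ φ.source := by
      simp only [φ, stereographic'_source, mem_compl_iff, mem_singleton_iff]
      intro hp
      have h1 : (p : EuclideanSpace ℝ (Fin (n + 1))) = -p := congrArg Subtype.val hp
      have h2 : (p : EuclideanSpace ℝ (Fin (n + 1))) = 0 := by
        have h3 : (2 : ℝ) • (p : EuclideanSpace ℝ (Fin (n + 1))) = 0 := by
          rw [two_smul]
          nth_rewrite 1 [h1]
          exact neg_add_cancel _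
        exact (smul_eq_zero.mp h3).resolve_left two_ne_zero
      exact ne_zero_of_mem_unit_sphere p h2
    let y0 := φ p
    have hsymm : Continuous φ.symm := by
      have h1 := φ.continuousOn_symm
      have h2 : φ.target = univ := stereographic'_target _
      rw [h2] at h1
      exact continuousOn_univ.mp h1
    have hinj : Function.Injective φ.symm := by
      intro a b hab
      have h2 : φ.target = univ := stereographic'_target _
      have ha := φ.right_inv (x := a) (by rw [h2]; trivial)
      have hb := φ.right_inv (x := b) (by rw [h2]; trivial)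
      rw [← ha, ← hb, hab]
    let f : EuclideanSpace ℝ (Fin n) → EuclideanSpace ℝ (Fin n) := fun y => h (φ.symm (y + y0))
    have hf : Continuous f := hc.comp (hsymm.comp (continuous_id.add continuous_const))
    have hfi : Function.Injective f := by
      intro a b hab
      exact add_right_cancel (hinj (hi hab))
    have h0 : f 0 = h p := by
      simp only [f, zero_add, y0]
      rw [φ.left_inv hps]
    have hint := mem_interior_image (f := f) hf.continuousOn hfi.injOn
    rw [h0] at hint
    rw [mem_interior_iff_mem_nhds] at hint
    refine Filter.mem_of_superset hint ?_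
    rintro _ ⟨y, -, rfl⟩
    exact ⟨_, rfl⟩
  have hcomp : IsCompact (range h) := isCompact_range hc
  have hclopen : IsClopen (range h) := ⟨hcomp.isClosed, hopen⟩
  have : Nonempty (sphere (0 : EuclideanSpace ℝ (Fin (n + 1))) 1) := by
    have : Nontrivial (EuclideanSpace ℝ (Fin (n + 1))) := inferInstance
    exact (NormedSpace.sphere_nonempty.mpr zero_le_one).to_subtype
  have huniv : range h = univ := hclopen.eq_univ (range_nonempty h)
  rw [huniv] at hcomp
  have : Nonempty (Fin n) := ⟨⟨0, hn⟩⟩
  have : Nontrivial (EuclideanSpace ℝ (Fin n)) := inferInstance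
  exact (NoncompactSpace.noncompact_univ (X := EuclideanSpace ℝ (Fin n))) hcomp

end Pool.Agent.Lib_helper53.Shadow
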